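import Mathlib.Data.Nat.ModEq
import Mathlib.Data.List.Basic
import Mathlib.Data.Fin.Basic
import Mathlib.Logic.Equiv.Basic
import Mathlib.Logic.Relation
import Mathlib.Data.Fintype.Basic
import Mathlib.Data.Fintype.Prod
import Mathlib.Data.Fin.VecNotation
import Mathlib.Tactic.FinCases
import Mathlib.Tactic.NormNum
import Mathlib.Tactic.Common

/-!
# Two Young graphs with the same underlying directed graph that are not isomorphic

The `(225, 79)` and the `(493, 316)` Young graphs both have `14` nodes and `17` edges and their underlying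
directed graphs are isomorphic, but the first one has one even pivot node and the second one has three.
-/

set_option autoImplicit false

namespace Pool.Agent.Results.MP_5fcb94_co.SameDigraph

open Relation

/-- The nodes: `none` is the starting node, `some (r', r)` is the ordinary node `[r', r]`. -/
abbrev Node := Option (ℕ × ℕ)

/-- the label `(r', r)` of a node; the starting node counts as `r' = r = 0` -/
def lab : Node → ℕ × ℕ
  | none => (0, 0)
  | some x => x

/-- There is an edge from `u = [r', r]` to `v = [t, s]`: for some digits `a, b < g` (both positive if `u` is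
the starting node) `k a + r ≡ b (mod g)`, `0 ≤ a + r' g - k b < k`, `t = a + r' g - k b` and
`s = (k a + r - b) / g`. -/
def Edge (g k : ℕ) (u v : Node) : Prop :=
  ∃ a b : ℕ, a < g ∧ b < g ∧ k * a + (lab u).2 ≡ b [MOD g] ∧ k * b ≤ a + (lab u).1 * g ∧
    a + (lab u).1 * g - k * b < k ∧ (u = none → 1 ≤ a ∧ 1 ≤ b) ∧
    v = some (a + (lab u).1 * g - k * b, (k * a + (lab u).2 - b) / g)

/-- the nodes of `H(g, k)`: those reachable from the starting node -/
def InH (g k : ℕ) (v : Node) : Prop := ReflTransGen (Edge g k) none v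

/-- even pivot nodes -/
def EvenPivot (v : Node) : Prop := ∃ r, v = some (r, r)

/-- odd pivot nodes -/
def OddPivot (g k : ℕ) (v : Node) : Prop :=
  (∃ r, v = some (r, r) ∧ Edge g k v v) ∨
    ∃ r' r, r' ≠ r ∧ v = some (r', r) ∧ Edge g k v (some (r, r'))

/-- the `(g, k)` Young graph exists -/
def YoungExists (g k : ℕ) : Prop :=
  ∃ v, InH g k v ∧ (EvenPivot v ∨ OddPivot g k v) ∧ v ≠ some (0, 0)

/-- the nodes of the Young graph: the nodes of `H(g, k)` from which a pivot node can be reached -/
def InYoung (g k : ℕ) (v : Node) : Prop :=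
  InH g k v ∧ ∃ w, ReflTransGen (Edge g k) v w ∧ (EvenPivot w ∨ OddPivot g k w)

/-- `f` is an isomorphism of the underlying directed graphs -/
def IsDigraphIso {g k g' k' : ℕ} (f : {v // InYoung g k v} ≃ {v // InYoung g' k' v}) : Prop :=
  ∀ u v : {v // InYoung g k v}, Edge g k u.1 v.1 ↔ Edge g' k' (f u).1 (f v).1

/-- `f` is an isomorphism of Young graphs -/
def IsYoungIso {g k g' k' : ℕ} (f : {v // InYoung g k v} ≃ {v // InYoung g' k' v}) : Prop :=
  IsDigraphIso f ∧ (∀ v, EvenPivot v.1 ↔ EvenPivot (f v).1) ∧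
    ∀ v, OddPivot g k v.1 ↔ OddPivot g' k' (f v).1

/-! ## computation -/

/-- the list of out-neighbours -/
def outs (g k : ℕ) (u : Node) : List Node :=
  (List.range g).filterMap (fun a =>
    if k * ((k * a + (lab u).2) % g) ≤ a + (lab u).1 * g ∧
      a + (lab u).1 * g - k * ((k * a + (lab u).2) % g) < k ∧
      (u = none → 1 ≤ a ∧ 1 ≤ (k * a + (lab u).2) % g)
    then some (some (a + (lab u).1 * g - k * ((k * a + (lab u).2) % g),
      (k * a + (lab u).2 - (k * a + (lab u).2) % g) / g)) else none)

lemma edge_iff (g k : ℕ) (hg : 0 < g) (u v : Node) : Edge g k u v ↔ v ∈ outs g k u := by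
  unfold outs
  rw [List.mem_filterMap]
  constructor
  · rintro ⟨a, b, h1, h2, h3, h4, h5, h6, h7⟩
    have hb : (k * a + (lab u).2) % g = b := by
      have : (k * a + (lab u).2) % g = b % g := h3
      rw [this, Nat.mod_eq_of_lt h2]
    refine ⟨a, List.mem_range.2 h1, ?_⟩
    rw [hb, if_pos ⟨h4, h5, h6⟩, h7]
  · rintro ⟨a, h1, h2⟩
    split_ifs at h2 with h3
    refine ⟨a, (k * a + (lab u).2) % g, List.mem_range.1 h1, Nat.mod_lt _ hg,
      (Nat.mod_modEq _ _).symm, h3.1, h3.2.1, h3.2.2, ?_⟩
    exact (Option.some.inj h2).symm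

/-- the common digraph -/
def adj : Fin 14 → List (Fin 14) :=
  ![[1], [2, 7], [3], [4], [5], [6], [12], [8], [9], [10], [11], [12], [13, 1], [13, 1]]

/-- the data of a Young graph whose digraph is `adj` -/
structure Data (g k : ℕ) (N : Fin 14 → Node) (D : List Node) : Prop where
  hg : 0 < g
  zero : N 0 = none
  out : ∀ i, ∀ v ∈ outs g k (N i), (∃ j ∈ adj i, N j = v) ∨ v ∈ D
  inn : ∀ i, ∀ j ∈ adj i, N j ∈ outs g k (N i)
  dead : ∀ v ∈ D, ∀ w ∈ outs g k v, w ∈ D
  nopiv : ∀ v ∈ D, v ≠ some ((lab v).1, (lab v).1) ∧ some ((lab v).2, (lab v).1) ∉ outs g k v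
  inj : ∀ i j, N i = N j → i = j
  disj : ∀ i, N i ∉ D
  piv : N 12 = some ((lab (N 12)).1, (lab (N 12)).2) ∧ (lab (N 12)).1 ≠ (lab (N 12)).2 ∧
    some ((lab (N 12)).2, (lab (N 12)).1) ∈ outs g k (N 12)

/-- an order of the nodes in which every node but the first one has a predecessor before it -/
lemma adj_reach : ∀ i : Fin 14, ReflTransGen (fun i j => j ∈ adj i) 0 i := by
  have s : ∀ i j : Fin 14, j ∈ adj i → ReflTransGen (fun i j => j ∈ adj i) 0 i →
      ReflTransGen (fun i j => j ∈ adj i) 0 j := fun i j h1 h2 => h2.tail h1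
  have h0 : ReflTransGen (fun i j => j ∈ adj i) 0 (0 : Fin 14) := ReflTransGen.refl
  have h1 := s 0 1 (by decide) h0
  have h2 := s 1 2 (by decide) h1
  have h3 := s 2 3 (by decide) h2
  have h4 := s 3 4 (by decide) h3
  have h5 := s 4 5 (by decide) h4
  have h6 := s 5 6 (by decide) h5
  have h7 := s 1 7 (by decide) h1
  have h8 := s 7 8 (by decide) h7
  have h9 := s 8 9 (by decide) h8
  have h10 := s 9 10 (by decide) h9
  have h11 := s 10 11 (by decide) h10
  have h12 := s 11 12 (by decide) h11
  have h13 := s 12 13 (by decide) h12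
  intro i
  fin_cases i
  · exact h0
  · exact h1
  · exact h2
  · exact h3
  · exact h4
  · exact h5
  · exact h6
  · exact h7
  · exact h8
  · exact h9
  · exact h10
  · exact h11
  · exact h12
  · exact h13

lemma adj_coreach : ∀ i : Fin 14, ReflTransGen (fun i j => j ∈ adj i) i 12 := by
  have s : ∀ i j : Fin 14, j ∈ adj i → ReflTransGen (fun i j => j ∈ adj i) j 12 →
      ReflTransGen (fun i j => j ∈ adj i) i 12 := fun i j h1 h2 => h2.head h1
  have h12 : ReflTransGen (fun i j => j ∈ adj i) 12 (12 : Fin 14) := ReflTransGen.refl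
  have h11 := s 11 12 (by decide) h12
  have h10 := s 10 11 (by decide) h11
  have h9 := s 9 10 (by decide) h10
  have h8 := s 8 9 (by decide) h9
  have h7 := s 7 8 (by decide) h8
  have h6 := s 6 12 (by decide) h12
  have h5 := s 5 6 (by decide) h6
  have h4 := s 4 5 (by decide) h5
  have h3 := s 3 4 (by decide) h4
  have h2 := s 2 3 (by decide) h3
  have h1 := s 1 2 (by decide) h2
  have h0 := s 0 1 (by decide) h1
  have h13 := s 13 1 (by decide) h1
  intro i
  fin_cases i
  · exact h0
  · exact h1
  · exact h2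
  · exact h3
  · exact h4
  · exact h5
  · exact h6
  · exact h7
  · exact h8
  · exact h9
  · exact h10
  · exact h11
  · exact h12
  · exact h13

variable {g k : ℕ} {N : Fin 14 → Node} {D : List Node}

lemma Data.edge (h : Data g k N D) (i j : Fin 14) : Edge g k (N i) (N j) ↔ j ∈ adj i := by
  rw [edge_iff g k h.hg]
  constructor
  · intro h1
    rcases h.out i _ h1 with ⟨j', h2, h3⟩ | h2
    · rw [← h.inj _ _ h3]
      exact h2
    · exact absurd h2 (h.disj j)
  · exact h.inn i j

lemma Data.lift (h : Data g k N D) {i j : Fin 14} (hr : ReflTransGen (fun i j => j ∈ adj i) i j) :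
    ReflTransGen (Edge g k) (N i) (N j) := by
  induction hr with
  | refl => exact ReflTransGen.refl
  | tail _ hs ih => exact ih.tail ((h.edge _ _).2 hs)

lemma Data.oddPivot (h : Data g k N D) : OddPivot g k (N 12) := by
  obtain ⟨h1, h2, h3⟩ := h.piv
  exact Or.inr ⟨_, _, h2, h1, (edge_iff g k h.hg _ _).2 h3⟩

lemma Data.young (h : Data g k N D) (v : Node) : InYoung g k v ↔ ∃ i, N i = v := by
  constructor
  · rintro ⟨h1, w, h2, h3⟩
    have h4 : (∃ i, N i = v) ∨ v ∈ D := by
      induction h1 with
      | refl => exact Or.inl ⟨0, h.zero⟩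
      | tail _ hs ih =>
        rcases ih (h2.head hs) with ⟨i, rfl⟩ | h5
        · rcases h.out i _ ((edge_iff g k h.hg _ _).1 hs) with ⟨j, -, h6⟩ | h6
          · exact Or.inl ⟨j, h6⟩
          · exact Or.inr h6
        · exact Or.inr (h.dead _ h5 _ ((edge_iff g k h.hg _ _).1 hs))
    rcases h4 with h4 | h4
    · exact h4
    · exfalso
      have h5 : w ∈ D := by
        clear h1 h3
        induction h2 with
        | refl => exact h4
        | tail _ hs ih => exact h.dead _ ih _ ((edge_iff g k h.hg _ _).1 hs)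
      obtain ⟨h6, h7⟩ := h.nopiv w h5
      rcases h3 with ⟨r, h8⟩ | ⟨r, h8, -⟩ | ⟨r', r, -, h8, h9⟩
      · rw [h8] at h6
        exact h6 rfl
      · rw [h8] at h6
        exact h6 rfl
      · have h10 := (edge_iff g k h.hg _ _).1 h9
        rw [h8] at h7 h10
        exact h7 h10
  · rintro ⟨i, rfl⟩
    refine ⟨?_, N 12, h.lift (adj_coreach i), Or.inr h.oddPivot⟩
    have := h.lift (adj_reach i)
    rw [h.zero] at this
    exact this

/-- the nodes of the `(225, 79)` Young graph -/
def N₁ : Fin 14 → Node :=
  ![none, some (30, 66), some (36, 28), some (38, 26), some (76, 20), some (40, 56), some (61, 51),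
    some (51, 61), some (56, 40), some (20, 76), some (26, 38), some (28, 36), some (66, 30), some (0, 0)]

/-- the other nodes of `H(225, 79)` -/
def D₁ : List Node :=
  [some (15, 33), some (18, 14), some (33, 47), some (53, 59), some (41, 7), some (71, 73), some (2, 62),
    some (5, 43), some (8, 24), some (23, 57), some (25, 23), some (11, 5), some (41, 71), some (28, 4),
    some (43, 37), some (58, 70), some (46, 18), some (10, 22), some (25, 55), some (13, 3), some (43, 69),
    some (31, 17), some (46, 50), some (48, 16), some (63, 49), some (69, 11)]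

/-- the nodes of the `(493, 316)` Young graph -/
def N₂ : Fin 14 → Node :=
  ![none, some (138, 291), some (100, 4), some (130, 283), some (104, 104), some (283, 130),
    some (4, 100), some (238, 295), some (230, 287), some (96, 96), some (287, 230), some (295, 238),
    some (291, 138), some (0, 0)]

theorem data₁ : Data 225 79 N₁ D₁ where
  hg := by norm_num
  zero := rfl
  out := by decide +kernel
  inn := by decide +kernel
  dead := by decide +kernel
  nopiv := by decide +kernel
  inj := by decide +kernel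
  disj := by decide +kernel
  piv := by decide +kernel

theorem data₂ : Data 493 316 N₂ [] where
  hg := by norm_num
  zero := rfl
  out := by decide +kernel
  inn := by decide +kernel
  dead := by decide +kernel
  nopiv := by decide +kernel
  inj := by decide +kernel
  disj := by decide +kernel
  piv := by decide +kernel

lemma Data.exists (h : Data g k N D) : YoungExists g k := by
  refine ⟨N 12, ?_, Or.inr h.oddPivot, ?_⟩
  · have := h.lift (adj_reach 12)
    rw [h.zero] at this
    exact this
  · intro h1
    have h2 := h.piv.2.1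
    rw [h1] at h2
    exact h2 rfl

/-- the nodes are indexed by `Fin 14` -/
noncomputable def Data.equiv (h : Data g k N D) : Fin 14 ≃ {v // InYoung g k v} :=
  Equiv.ofBijective (fun i => ⟨N i, (h.young _).2 ⟨i, rfl⟩⟩)
    ⟨fun i j hij => h.inj i j (congrArg Subtype.val hij), fun v => by
      obtain ⟨i, hi⟩ := (h.young v.1).1 v.2
      exact ⟨i, Subtype.ext hi⟩⟩

/-- **There are `(g, k) ≠ (g', k')` whose Young graphs both exist and have isomorphic underlying directed
graphs, but are not isomorphic as Young graphs**, namely `(225, 79)` and `(493, 316)`. -/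
theorem result : ∃ g k g' k' : ℕ, 3 ≤ g ∧ 2 ≤ k ∧ k < g ∧ 3 ≤ g' ∧ 2 ≤ k' ∧ k' < g' ∧
    (g, k) ≠ (g', k') ∧ YoungExists g k ∧ YoungExists g' k' ∧
    (∃ f : {v // InYoung g k v} ≃ {v // InYoung g' k' v}, IsDigraphIso f) ∧
    ¬ ∃ f : {v // InYoung g k v} ≃ {v // InYoung g' k' v}, IsYoungIso f := by
  refine ⟨225, 79, 493, 316, by norm_num, by norm_num, by norm_num, by norm_num, by norm_num,
    by norm_num, by decide, data₁.exists, data₂.exists,
    ⟨data₁.equiv.symm.trans data₂.equiv, fun u v => ?_⟩, ?_⟩
  · obtain ⟨i, rfl⟩ := data₁.equiv.surjective u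
    obtain ⟨j, rfl⟩ := data₁.equiv.surjective v
    rw [Equiv.trans_apply, Equiv.trans_apply, Equiv.symm_apply_apply, Equiv.symm_apply_apply]
    change Edge 225 79 (N₁ i) (N₁ j) ↔ Edge 493 316 (N₂ i) (N₂ j)
    rw [data₁.edge, data₂.edge]
  · rintro ⟨f, -, h, -⟩
    have key : ∀ i : Fin 14, EvenPivot (N₂ i) → f.symm (data₂.equiv i) = data₁.equiv 13 := by
      intro i hi
      have h1 : EvenPivot (f.symm (data₂.equiv i)).1 := by
        rw [h, Equiv.apply_symm_apply]
        exact hi
      obtain ⟨j, hj⟩ := data₁.equiv.surjective (f.symm (data₂.equiv i))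
      rw [← hj] at h1 ⊢
      have h2 : EvenPivot (N₁ j) := h1
      have h3 : ∀ j : Fin 14, j ≠ 13 → N₁ j ≠ some ((lab (N₁ j)).1, (lab (N₁ j)).1) := by decide +kernel
      by_cases h4 : j = 13
      · rw [h4]
      · exfalso
        obtain ⟨r, hr⟩ := h2
        apply h3 j h4
        rw [hr]
        rfl
    have h1 := key 4 ⟨104, rfl⟩
    have h2 := key 9 ⟨96, rfl⟩
    have h3 := data₂.equiv.injective (f.symm.injective (h1.trans h2.symm))
    exact absurd h3 (by decide)

end Pool.Agent.Results.MP_5fcb94_co.SameDigraph
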